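import Mathlib

/-!
An `L^∞`-bounded semigroup associated with a closed sectorial form which is contractive for no
weighted supremum norm.
-/

open MeasureTheory Set Filter Topology
open scoped ENNReal InnerProductSpace ComplexConjugate

namespace Pool.Agent.Results.MP_916daf_an.NoWeight

section Abstract

variable {E : Type} [NormedAddCommGroup E] [InnerProductSpace ℂ E]

/-- Sesquilinear forms on the subspace `V`, linear in the first and antilinear in the second
argument. -/
abbrev Form (V : Submodule ℂ E) : Type := V →ₗ[ℂ] V →ₛₗ[starRingEnd ℂ] ℂ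

/-- The form is sectorial. -/
def Sectorial {V : Submodule ℂ E} (a : Form V) : Prop :=
  ∃ θ : ℝ, 0 ≤ θ ∧ θ < Real.pi / 2 ∧ ∀ u, a u u = 0 ∨ |(a u u).arg| ≤ θ

/-- The norm `(Re a(u, u) + ‖u‖²)^(1/2)`. -/
noncomputable def formNorm {V : Submodule ℂ E} (a : Form V) (u : V) : ℝ :=
  Real.sqrt ((a u u).re + ‖u‖ ^ 2)

/-- The form is closed: `V` is complete for `formNorm a`. -/
def ClosedForm {V : Submodule ℂ E} (a : Form V) : Prop :=
  ∀ u : ℕ → V, (∀ ε : ℝ, 0 < ε → ∃ N, ∀ m n, N ≤ m → N ≤ n → formNorm a (u m - u n) < ε) →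
    ∃ v : V, Tendsto (fun n => formNorm a (u n - v)) atTop (𝓝 0)

/-- `f ∈ D(A)` and `A f = h` for the operator `A` associated with the form: `f ∈ V` and
`a(f, v) = ⟨h, v⟩` for all `v ∈ V`. (Mathlib's inner product is antilinear in the first
argument.) -/
def AssocOp {V : Submodule ℂ E} (a : Form V) (f h : E) : Prop :=
  ∃ u : V, (u : E) = f ∧ ∀ v : V, a u v = ⟪(v : E), h⟫_ℂ

/-- `T` is a strongly continuous semigroup of bounded operators. -/
def IsC0Semigroup (T : ℝ → E →L[ℂ] E) : Prop :=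
  T 0 = 1 ∧ (∀ s t, 0 ≤ s → 0 ≤ t → T (s + t) = T s * T t) ∧
    ∀ f, Tendsto (fun t => T t f) (𝓝[>] 0) (𝓝 f)

/-- The generator of `T` is `-A`, `A` the operator associated with the form. -/
def GeneratedBy {V : Submodule ℂ E} (a : Form V) (T : ℝ → E →L[ℂ] E) : Prop :=
  ∀ f h, AssocOp a f h ↔ Tendsto (fun t : ℝ => (t : ℂ)⁻¹ • (f - T t f)) (𝓝[>] 0) (𝓝 h)

end Abstract

variable {Ω : Type} [MeasurableSpace Ω] {μ : Measure Ω}

/-- The complex Hilbert space `L²(Ω, μ)`. -/
abbrev H (μ : Measure Ω) : Type := Lp ℂ 2 μ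

/-- The semigroup is `L^∞`-bounded. -/
def LinftyBounded (T : ℝ → H μ →L[ℂ] H μ) : Prop :=
  ∃ M : ℝ, 1 ≤ M ∧ ∀ t, 0 ≤ t → ∀ f : H μ, MemLp f ∞ μ →
    eLpNorm (T t f) ∞ μ ≤ ENNReal.ofReal M * eLpNorm f ∞ μ

/-- Admissible weights. -/
def Admissible (μ : Measure Ω) (g : Ω → ℝ) : Prop :=
  Measurable g ∧ (∀ᵐ x ∂μ, 0 < g x) ∧ MemLp g ∞ μ ∧ MemLp (fun x => (g x)⁻¹) ∞ μ

/-- The semigroup is contractive for the weight `g`. -/
def ContractiveFor (T : ℝ → H μ →L[ℂ] H μ) (g : Ω → ℝ) : Prop :=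
  ∀ t, 0 ≤ t → ∀ f : H μ, MemLp f ∞ μ →
    eLpNorm (fun x => (g x : ℂ) * T t f x) ∞ μ ≤ eLpNorm (fun x => (g x : ℂ) * f x) ∞ μ

section Example

/-- Counting measure on three points. -/
noncomputable abbrev ν : Measure (Fin 3) := Measure.count

/-- The constant function one. -/
noncomputable def e : H ν := Lp.const 2 ν (1 : ℂ)

lemma ae_all {p : Fin 3 → Prop} (h : ∀ᵐ x ∂ν, p x) : ∀ x, p x := by
  intro x
  have := (ae_iff.1 h)
  by_contra hx
  have h2 : ν {x} ≤ 0 := by
    rw [← this]; exact measure_mono (by simpa using hx)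
  simp at h2

lemma e_apply (i : Fin 3) : e i = 1 := ae_all (Lp.coeFn_const 2 ν (1 : ℂ)) i

lemma inner_e (f : H ν) : ⟪e, f⟫_ℂ = ∑ i, f i := by
  rw [L2.inner_def, integral_fintype (by exact Integrable.of_finite)]
  refine Finset.sum_congr rfl fun i _ => ?_
  rw [e_apply]
  simp [Measure.real]

lemma inner_ee : ⟪e, e⟫_ℂ = 3 := by
  rw [inner_e]; simp [e_apply]

/-- The operator given by the matrix with all entries one. -/
noncomputable def P : H ν →L[ℂ] H ν := (innerSL ℂ e).smulRight e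

lemma P_apply (f : H ν) : P f = ⟪e, f⟫_ℂ • e := rfl

lemma P_coe (f : H ν) (i : Fin 3) : P f i = ∑ j, f j := by
  rw [P_apply, ae_all (Lp.coeFn_smul (⟪e, f⟫_ℂ) e) i, Pi.smul_apply, e_apply, inner_e]
  simp

lemma PP (f : H ν) : P (P f) = (3 : ℂ) • P f := by
  rw [P_apply (P f), P_apply f, inner_smul_right, inner_ee, mul_comm, mul_smul]

/-- The scalar function `(1 - exp (-3 t)) / 3`. -/
noncomputable def c (t : ℝ) : ℝ := (1 - Real.exp (-3 * t)) / 3

/-- The semigroup `exp (-t P)`. -/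
noncomputable def T (t : ℝ) : H ν →L[ℂ] H ν := 1 - (c t : ℂ) • P

lemma T_apply (t : ℝ) (f : H ν) : T t f = f - (c t : ℂ) • P f := rfl

lemma T_coe (t : ℝ) (f : H ν) (i : Fin 3) : T t f i = f i - c t * ∑ j, f j := by
  rw [T_apply, ae_all (Lp.coeFn_sub f ((c t : ℂ) • P f)) i, Pi.sub_apply,
    ae_all (Lp.coeFn_smul (c t : ℂ) (P f)) i, Pi.smul_apply, P_coe, smul_eq_mul]

/-- The form. -/
noncomputable def form : Form (⊤ : Submodule ℂ (H ν)) :=
  LinearMap.mk₂'ₛₗ (RingHom.id ℂ) (starRingEnd ℂ)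
    (fun u v => ⟪(v : H ν), P (u : H ν)⟫_ℂ)
    (fun u u' v => by simp [inner_add_right])
    (fun r u v => by simp [inner_smul_right])
    (fun u v v' => by simp [inner_add_left])
    (fun r u v => by simp [inner_smul_left])

lemma form_apply (u v : (⊤ : Submodule ℂ (H ν))) : form u v = ⟪(v : H ν), P (u : H ν)⟫_ℂ := rfl

lemma form_self (u : (⊤ : Submodule ℂ (H ν))) :
    form u u = ((‖⟪e, (u : H ν)⟫_ℂ‖ ^ 2 : ℝ) : ℂ) := by
  rw [form_apply, P_apply, inner_smul_right, ← inner_conj_symm (u : H ν) e, Complex.mul_conj,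
    Complex.normSq_eq_norm_sq]

lemma c_nonneg {t : ℝ} (ht : 0 ≤ t) : 0 ≤ c t := by
  have : Real.exp (-3 * t) ≤ 1 := Real.exp_le_one_iff.2 (by linarith)
  unfold c; linarith

lemma c_le {t : ℝ} : c t ≤ 1 / 3 := by
  have : 0 < Real.exp (-3 * t) := Real.exp_pos _
  unfold c; linarith

lemma c_deriv : HasDerivAt c 1 0 := by
  have h1 : HasDerivAt (fun t : ℝ => -3 * t) (-3) 0 := by
    simpa using (hasDerivAt_id (0 : ℝ)).const_mul (-3)
  have h2 := h1.exp
  have h3 := (h2.const_sub 1).div_const 3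
  have : c = fun t => (1 - Real.exp (-3 * t)) / 3 := rfl
  rw [this]
  have h4 : -(Real.exp (-3 * 0) * -3) / 3 = 1 := by norm_num
  rw [h4] at h3
  exact h3

lemma c_zero : c 0 = 0 := by simp [c]

lemma c_tendsto : Tendsto (fun t : ℝ => t⁻¹ * c t) (𝓝[>] 0) (𝓝 1) := by
  have h := (hasDerivAt_iff_tendsto_slope_zero.1 c_deriv)
  have h2 := h.mono_left (nhdsWithin_mono 0 (fun x (hx : 0 < x) => ne_of_gt hx) :
    𝓝[Ioi 0] (0 : ℝ) ≤ 𝓝[≠] 0)
  simpa [c_zero] using h2

end Example

/-- There are a `σ`-finite measure space (three points with counting measure), a densely defined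
closed sectorial form and the semigroup generated by minus the associated operator such that the
semigroup is `L^∞`-bounded but contractive for no admissible weight. -/
theorem result :
    ∃ (Ω : Type) (_ : MeasurableSpace Ω) (μ : Measure Ω) (_ : SigmaFinite μ)
      (V : Submodule ℂ (H μ)) (a : Form V) (T : ℝ → H μ →L[ℂ] H μ),
      Dense (V : Set (H μ)) ∧ Sectorial a ∧ ClosedForm a ∧ IsC0Semigroup T ∧ GeneratedBy a T ∧
        LinftyBounded T ∧ ¬ ∃ g, Admissible μ g ∧ ContractiveFor T g := by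
  refine ⟨Fin 3, inferInstance, ν, inferInstance, ⊤, form, T, ?_, ?_, ?_, ?_, ?_, ?_, ?_⟩
  · simp
  · refine ⟨0, le_refl _, by positivity, fun u => Or.inr ?_⟩
    rw [form_self, Complex.arg_ofReal_of_nonneg (by positivity)]; simp
  · intro u hu
    have hle : ∀ w : (⊤ : Submodule ℂ (H ν)), ‖(w : H ν)‖ ≤ formNorm form w := by
      intro w
      apply Real.le_sqrt_of_sq_le
      rw [form_self, Complex.ofReal_re]
      have : 0 ≤ ‖⟪e, (w : H ν)⟫_ℂ‖ ^ 2 := by positivity
      have h0 : ‖w‖ = ‖(w : H ν)‖ := rfl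
      rw [h0]
      linarith
    have hcau : CauchySeq fun n => (u n : H ν) := by
      rw [Metric.cauchySeq_iff]
      intro ε hε
      obtain ⟨N, hN⟩ := hu ε hε
      refine ⟨N, fun m hm n hn => ?_⟩
      rw [dist_eq_norm]
      exact lt_of_le_of_lt (hle (u m - u n)) (hN m n hm hn)
    obtain ⟨v, hv⟩ := cauchySeq_tendsto_of_complete hcau
    refine ⟨⟨v, trivial⟩, ?_⟩
    have h1 : Tendsto (fun n => (u n : H ν) - v) atTop (𝓝 0) := by
      simpa using hv.sub_const v
    have h2 : Continuous fun w : H ν => Real.sqrt (‖⟪e, w⟫_ℂ‖ ^ 2 + ‖w‖ ^ 2) := by fun_prop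
    have h3 := (h2.tendsto 0).comp h1
    simp only [inner_zero_right, norm_zero] at h3
    have h4 : (fun n => formNorm form (u n - ⟨v, trivial⟩)) =
        (fun w : H ν => Real.sqrt (‖⟪e, w⟫_ℂ‖ ^ 2 + ‖w‖ ^ 2)) ∘ fun n => (u n : H ν) - v := by
      funext n
      simp only [formNorm, Function.comp_apply]
      rw [form_self, Complex.ofReal_re]
      rfl
    rw [h4]
    simpa using h3
  · refine ⟨?_, ?_, ?_⟩
    · ext1 f
      rw [T_apply, c_zero]; simp
    · intro s t _ _
      ext1 f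
      rw [mul_apply_eq_comp, T_apply, T_apply, T_apply, map_sub, map_smul, PP]
      have hc : (c (s + t) : ℂ) = c s + c t - 3 * (c s * c t) := by
        have : c (s + t) = c s + c t - 3 * (c s * c t) := by
          unfold c
          have : Real.exp (-3 * (s + t)) = Real.exp (-3 * s) * Real.exp (-3 * t) := by
            rw [← Real.exp_add]; congr 1; ring
          rw [this]; ring
        rw [this]; push_cast; ring
      rw [hc]
      module
    · intro f
      have h1 : Continuous fun t : ℝ => T t f := by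
        have : (fun t : ℝ => T t f) = fun t => f - (c t : ℂ) • P f := rfl
        rw [this]
        unfold c
        fun_prop
      have h2 := h1.tendsto 0
      have h3 : T 0 f = f := by rw [T_apply, c_zero]; simp
      rw [h3] at h2
      exact h2.mono_left nhdsWithin_le_nhds
  · · intro f h
      have hlim : Tendsto (fun t : ℝ => (t : ℂ)⁻¹ • (f - T t f)) (𝓝[>] 0) (𝓝 (P f)) := by
        have h1 : (fun t : ℝ => (t : ℂ)⁻¹ • (f - T t f)) =
            fun t : ℝ => ((t⁻¹ * c t : ℝ) : ℂ) • P f := by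
          funext t
          rw [T_apply, sub_sub_cancel, smul_smul]; push_cast; ring_nf
        rw [h1]
        have h2 : Tendsto (fun t : ℝ => ((t⁻¹ * c t : ℝ) : ℂ)) (𝓝[>] 0) (𝓝 ((1 : ℝ) : ℂ)) :=
          (Complex.continuous_ofReal.tendsto 1).comp c_tendsto
        simpa using h2.smul_const (P f)
      constructor
      · rintro ⟨u, rfl, hu⟩
        have : P (u : H ν) = h := by
          refine ext_inner_left ℂ fun v => ?_
          exact hu ⟨v, trivial⟩
        rw [← this]; exact hlim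
      · intro ht
        have : P f = h := tendsto_nhds_unique hlim ht
        refine ⟨⟨f, trivial⟩, rfl, fun v => ?_⟩
        rw [form_apply, this]
  · refine ⟨2, by norm_num, fun t ht f hf => ?_⟩
    rw [eLpNorm_exponent_top, eLpNorm_exponent_top, eLpNormEssSup_count, eLpNormEssSup_count]
    -- a real bound for the values
    obtain ⟨B, hB0, hB⟩ : ∃ B : ℝ, 0 ≤ B ∧ ((⨆ a, ‖f a‖ₑ) = ENNReal.ofReal B) := by
      have h1 : (⨆ a, ‖f a‖ₑ) ≠ ∞ := by
        rw [← eLpNormEssSup_count, ← eLpNorm_exponent_top]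
        exact hf.2.ne
      exact ⟨(⨆ a, ‖f a‖ₑ).toReal, ENNReal.toReal_nonneg, (ENNReal.ofReal_toReal h1).symm⟩
    have hfB : ∀ i, ‖f i‖ ≤ B := by
      intro i
      have h1 : ‖f i‖ₑ ≤ ENNReal.ofReal B := hB ▸ le_iSup (fun a => ‖f a‖ₑ) i
      rw [← ofReal_norm] at h1
      exact (ENNReal.ofReal_le_ofReal_iff hB0).1 h1
    rw [hB, ← ENNReal.ofReal_mul (by norm_num)]
    refine iSup_le fun i => ?_
    rw [← ofReal_norm]
    apply ENNReal.ofReal_le_ofReal
    rw [T_coe]
    have hs : ‖∑ j, f j‖ ≤ 3 * B := by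
      calc ‖∑ j, f j‖ ≤ ∑ j, ‖f j‖ := norm_sum_le _ _
        _ ≤ ∑ _j : Fin 3, B := Finset.sum_le_sum fun j _ => hfB j
        _ = 3 * B := by simp
    calc ‖f i - c t * ∑ j, f j‖ ≤ ‖f i‖ + ‖(c t : ℂ) * ∑ j, f j‖ := norm_sub_le _ _
      _ = ‖f i‖ + c t * ‖∑ j, f j‖ := by
          rw [norm_mul, Complex.norm_real, Real.norm_of_nonneg (c_nonneg ht)]
      _ ≤ B + 1 / 3 * (3 * B) := by
          have := hfB i
          have := c_nonneg ht
          have h5 := c_le (t := t)
          gcongr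
      _ = 2 * B := by ring
  · rintro ⟨g, ⟨-, hpos, -, -⟩, hg⟩
    have hgp : ∀ i, 0 < g i := ae_all hpos
    -- the index with the largest weight
    obtain ⟨i, hi⟩ : ∃ i, ∀ j, g j ≤ g i := by
      obtain ⟨i, -, hi⟩ := Finset.exists_max_image (Finset.univ : Finset (Fin 3)) g ⟨0, by simp⟩
      exact ⟨i, fun j => hi j (Finset.mem_univ j)⟩
    -- the test function
    set F : Fin 3 → ℂ := fun j => if j = i then ((g j)⁻¹ : ℝ) else -((g j)⁻¹ : ℝ) with hF
    have hFm : MemLp F 2 ν := MemLp.of_discrete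
    have hFc : ∀ j, hFm.toLp F j = F j := fun j => ae_all hFm.coeFn_toLp j
    have h1 := hg 1 zero_le_one (hFm.toLp F) MemLp.of_discrete
    rw [eLpNorm_exponent_top, eLpNorm_exponent_top, eLpNormEssSup_count, eLpNormEssSup_count] at h1
    have h2 : (⨆ a, ‖(g a : ℂ) * hFm.toLp F a‖ₑ) ≤ 1 := by
      refine iSup_le fun j => ?_
      rw [hFc, ← ofReal_norm, ← ENNReal.ofReal_one]
      apply ENNReal.ofReal_le_ofReal
      rw [norm_mul, Complex.norm_real, Real.norm_of_nonneg (hgp j).le]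
      have : ‖F j‖ = (g j)⁻¹ := by
        simp only [hF]
        split_ifs
        · rw [Complex.norm_real, Real.norm_of_nonneg (inv_pos.2 (hgp j)).le]
        · rw [norm_neg, Complex.norm_real, Real.norm_of_nonneg (inv_pos.2 (hgp j)).le]
      rw [this, mul_inv_cancel₀ (hgp j).ne']
    have h3 : ‖(g i : ℂ) * T 1 (hFm.toLp F) i‖ₑ ≤ 1 :=
      (le_iSup (fun a => ‖(g a : ℂ) * T 1 (hFm.toLp F) a‖ₑ) i).trans (h1.trans h2)
    rw [← ofReal_norm, ← ENNReal.ofReal_one, ENNReal.ofReal_le_ofReal_iff zero_le_one,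
      T_coe] at h3
    have hc1 : 0 < c 1 := by
      unfold c
      have : Real.exp (-3 * 1) < 1 := by
        rw [← Real.exp_zero]; exact Real.exp_lt_exp.2 (by norm_num)
      exact div_pos (sub_pos.2 this) (by norm_num)
    have hsum : ∃ S : ℝ, S ≤ -(g i)⁻¹ ∧ (∑ j, hFm.toLp F j : ℂ) = (S : ℂ) := by
      refine ⟨∑ j, if j = i then (g j)⁻¹ else -(g j)⁻¹, ?_, ?_⟩
      · rw [← Finset.add_sum_erase _ _ (Finset.mem_univ i), if_pos rfl]
        have : ∑ j ∈ Finset.univ.erase i, (if j = i then (g j)⁻¹ else -(g j)⁻¹) ≤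
            ∑ j ∈ Finset.univ.erase i, -(g i)⁻¹ := by
          refine Finset.sum_le_sum fun j hj => ?_
          rw [if_neg (Finset.ne_of_mem_erase hj)]
          have := inv_anti₀ (hgp j) (hi j)
          linarith
        rw [Finset.sum_const, Finset.card_erase_of_mem (Finset.mem_univ i), Finset.card_univ,
          Fintype.card_fin, nsmul_eq_mul] at this
        push_cast at this
        linarith
      · push_cast
        refine Finset.sum_congr rfl fun j _ => ?_
        rw [hFc]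
        simp only [hF]
        split_ifs <;> push_cast <;> rfl
    obtain ⟨S, hS, hS'⟩ := hsum
    rw [hS', hFc] at h3
    have hFi : F i = (((g i)⁻¹ : ℝ) : ℂ) := by simp [hF]
    rw [hFi] at h3
    have h4 : (g i : ℂ) * ((((g i)⁻¹ : ℝ) : ℂ) - c 1 * (S : ℂ)) =
        ((g i * ((g i)⁻¹ - c 1 * S) : ℝ) : ℂ) := by push_cast; ring
    rw [h4, Complex.norm_real] at h3
    have h5 := (le_abs_self _).trans h3
    rw [mul_sub, mul_inv_cancel₀ (hgp i).ne'] at h5
    have h6 : S < 0 := lt_of_le_of_lt hS (neg_neg_of_pos (inv_pos.2 (hgp i)))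
    have h7 : 0 < g i * (c 1 * (-S)) := mul_pos (hgp i) (mul_pos hc1 (by linarith))
    nlinarith

end Pool.Agent.Results.MP_916daf_an.NoWeight
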